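import Pool.Agent.MP_387a72_lc.Main

namespace Pool.Agent.Results.MP_387a72_lc.BorelReduction

open Pool.Agent.MP_387a72_lc

/-- **Full positive answer to Q1.** Convex bi-embeddability of countable linear orders is Borel
reducible to isomorphism of countable linear orders. -/
theorem result : BorelReducible ConvexBiEmb IsoLO := main

end Pool.Agent.Results.MP_387a72_lc.BorelReduction
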