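import Pool.Agent.MP_387a72_lc.Main

namespace Pool.Agent.Results.MP_387a72_lc.OrbitReduction

open Pool.Agent.MP_387a72_lc

/-- **Full positive answer to Q2.** Convex bi-embeddability of countable linear orders is Borel
reducible to the orbit equivalence relation of a continuous action of a Polish group on a Polish
space. -/
theorem result :
    ∃ (G : Type) (_ : Group G) (_ : TopologicalSpace G) (_ : IsTopologicalGroup G)
      (_ : PolishSpace G) (Y : Type) (_ : TopologicalSpace Y) (_ : PolishSpace Y)
      (_ : MulAction G Y) (_ : ContinuousSMul G Y),
      BorelReducible ConvexBiEmb (OrbitRel G Y) :=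
  ⟨SInf, inferInstance, inferInstance, inferInstance, inferInstance, LO, inferInstance,
    inferInstance, inferInstance, inferInstance, main_orbit⟩

end Pool.Agent.Results.MP_387a72_lc.OrbitReduction
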